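import Mathlib

/-!
# MP_a267a3_lc, full answer, Part III: tame parametrisation of blocks (abstract permutation groups)
-/

set_option autoImplicit false

namespace Pool.Agent.MPa267.PG

variable {X : Type*}

/-- The translate `R` of `D` is tame: `R = β D` with `β ∈ H` such that every element of `H` which fixes a
certain finite set pointwise preserves `D` and commutes with `β` on `D`. -/
def Tame (H : Subgroup (Equiv.Perm X)) (D R : Set X) : Prop :=
  ∃ β ∈ H, β '' D = R ∧ ∃ A : Finset X, ∀ τ ∈ H, (∀ a ∈ A, τ a = a) →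
    τ '' D = D ∧ ∀ d ∈ D, τ (β d) = β (τ d)

namespace TameAux

theorem inv_apply (σ : Equiv.Perm X) (x : X) : σ⁻¹ (σ x) = x := σ.symm_apply_apply x

theorem apply_inv (σ : Equiv.Perm X) (x : X) : σ (σ⁻¹ x) = x := σ.apply_symm_apply x

theorem image_image_inv (σ : Equiv.Perm X) (A : Set X) : σ '' ((σ⁻¹ : Equiv.Perm X) '' A) = A := by
  rw [← Set.image_comp]
  have : (σ : X → X) ∘ (σ⁻¹ : Equiv.Perm X) = id := by funext y; exact apply_inv σ y
  rw [this, Set.image_id]

theorem image_inv_image (σ : Equiv.Perm X) (A : Set X) : (σ⁻¹ : Equiv.Perm X) '' (σ '' A) = A := by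
  rw [← Set.image_comp]
  have : ((σ⁻¹ : Equiv.Perm X) : X → X) ∘ σ = id := by funext y; exact inv_apply σ y
  rw [this, Set.image_id]

theorem image_mul (σ τ : Equiv.Perm X) (A : Set X) : (σ * τ : Equiv.Perm X) '' A = σ '' (τ '' A) := by
  rw [← Set.image_comp]; rfl

end TameAux

open TameAux

/-- if `h D` and `R` are tame then so is `h R` -/
theorem Tame.mul {H : Subgroup (Equiv.Perm X)} {D R : Set X} {h : Equiv.Perm X} (hh : h ∈ H)
    (h2 : Tame H D (h '' D)) (h1 : Tame H D R) : Tame H D (h '' R) := by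
  classical
  obtain ⟨β, hβ, hβR, A, hA⟩ := h1
  obtain ⟨β₂, hβ₂, hβ₂R, A₂, hA₂⟩ := h2
  have hD : (h⁻¹ * β₂ : Equiv.Perm X) '' D = D := by
    rw [image_mul, hβ₂R, image_inv_image]
  refine ⟨h * β * h⁻¹ * β₂, H.mul_mem (H.mul_mem (H.mul_mem hh hβ) (H.inv_mem hh)) hβ₂, ?_,
    A.image h ∪ A₂, ?_⟩
  · have e : h * β * h⁻¹ * β₂ = h * (β * (h⁻¹ * β₂)) := by group
    rw [e, image_mul, image_mul, hD, hβR]
  · intro τ hτ hfix
    obtain ⟨e1, e2⟩ := hA₂ τ hτ (fun a ha => hfix a (Finset.mem_union_right _ ha))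
    obtain ⟨e3, e4⟩ := hA (h⁻¹ * τ * h) (H.mul_mem (H.mul_mem (H.inv_mem hh) hτ) hh) (by
      intro a ha
      have := hfix (h a) (Finset.mem_union_left _ (Finset.mem_image_of_mem _ ha))
      change h⁻¹ (τ (h a)) = a
      rw [this]; exact inv_apply h a)
    refine ⟨e1, ?_⟩
    intro d hd
    have hd' : (h⁻¹ * β₂ : Equiv.Perm X) d ∈ D := by
      rw [← hD]; exact Set.mem_image_of_mem _ hd
    have e5 := e4 _ hd'
    have e6 : τ (h (β (h⁻¹ (β₂ d)))) = h (β (h⁻¹ (τ (β₂ d)))) := by
      have e7 : h⁻¹ (τ (h (β (h⁻¹ (β₂ d))))) = β (h⁻¹ (τ (h (h⁻¹ (β₂ d))))) := e5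
      rw [apply_inv] at e7
      rw [← e7, apply_inv]
    have e8 := e2 d hd
    change τ (h (β (h⁻¹ (β₂ d)))) = h (β (h⁻¹ (β₂ (τ d))))
    rw [e6, e8]

/-- `D` itself is tame -/
theorem Tame.of_preserve {H : Subgroup (Equiv.Perm X)} {D : Set X} (A : Finset X)
    (hA : ∀ τ ∈ H, (∀ a ∈ A, τ a = a) → τ '' D = D) : Tame H D D :=
  ⟨1, H.one_mem, by simp, A, fun τ hτ h => ⟨hA τ hτ h, fun _ _ => rfl⟩⟩

/-- all translates of `D` are tame if `H` is generated by elements `s` with `s D` tame, closed under
inverses -/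
theorem tame_all {H : Subgroup (Equiv.Perm X)} {D : Set X} (S : Set (Equiv.Perm X))
    (hS : ∀ s ∈ S, s ∈ H ∧ s⁻¹ ∈ S ∧ Tame H D (s '' D)) (hD : Tame H D D)
    (hgen : H ≤ Subgroup.closure S) : ∀ h ∈ H, Tame H D (h '' D) := by
  intro h hh
  have key : ∀ g ∈ Subgroup.closure S, ∀ R : Set X, Tame H D R → Tame H D (g '' R) := by
    intro g hg
    induction hg using Subgroup.closure_induction with
    | mem x hx =>
      intro R hR
      exact Tame.mul (hS x hx).1 (hS x hx).2.2 hR
    | one => intro R hR; simpa using hR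
    | mul x y _ _ hx hy =>
      intro R hR
      rw [image_mul]
      exact hx _ (hy _ hR)
    | inv x hx ih =>
      -- handled through the symmetric generating set
      intro R hR
      have h1 : x⁻¹ ∈ Subgroup.closure S := Subgroup.inv_mem _ hx
      have h2 : ∀ y ∈ Subgroup.closure S, y ∈ Submonoid.closure S := by
        intro y hy
        have h3 : Subgroup.closure S = Subgroup.closure S := rfl
        have h4 : (Subgroup.closure S).toSubmonoid = Submonoid.closure (S ∪ S⁻¹) :=
          Subgroup.closure_toSubmonoid S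
        have h5 : S ∪ S⁻¹ = S := by
          ext z
          constructor
          · rintro (hz | hz)
            · exact hz
            · have := (hS _ hz).2.1
              simpa using this
          · intro hz; exact Or.inl hz
        rw [h5] at h4
        rw [← h4]; exact hy
      have h6 : ∀ y ∈ Submonoid.closure S, ∀ R : Set X, Tame H D R → Tame H D (y '' R) := by
        intro y hy
        induction hy using Submonoid.closure_induction with
        | mem x hx =>
          intro R hR
          exact Tame.mul (hS x hx).1 (hS x hx).2.2 hR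
        | one => intro R hR; simpa using hR
        | mul x y _ _ hx hy =>
          intro R hR
          rw [image_mul]
          exact hx _ (hy _ hR)
      exact h6 _ (h2 _ h1) R hR
  exact key h (hgen hh) D hD

end Pool.Agent.MPa267.PG
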